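import Pool.Agent.Helper14.CV.StD

/-!
# Project CV, module Fex: Farey existence
-/

set_option autoImplicit false

namespace Pool.Agent.Helper55.CV

open Pool.Agent.Helper14.CV

/-- canonical inverse of `p` modulo `q` -/
private def rr (q : ℕ) (p : ℤ) : ℕ := (Int.gcdA p q % q).toNat

private theorem rr_lt (q : ℕ) (p : ℤ) (h : q ≠ 0) : rr q p < q := by
  unfold rr
  have h1 : (0 : ℤ) < q := by omega
  have h2 := Int.emod_lt_of_pos (Int.gcdA p q) h1
  have h3 := Int.emod_nonneg (Int.gcdA p q) h1.ne'
  omega

/-- the potential on primitive vectors `(p, q)`, `q ≥ 0` -/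
private def GG {R : Type} [AddCommGroup R] (E : ℤ → ℤ → ℤ → ℤ → R) (q : ℕ) (p : ℤ) : R :=
  if h : q = 0 then 0 else
    have := rr_lt q p h
    GG E (rr q p) ((p * rr q p - 1) / q) + E p ((p * rr q p - 1) / q) q (rr q p)
termination_by q

private theorem GG_zero {R : Type} [AddCommGroup R] (E : ℤ → ℤ → ℤ → ℤ → R) (p : ℤ) :
    GG E 0 p = 0 := by
  rw [GG]; simp

private theorem GG_step {R : Type} [AddCommGroup R] (E : ℤ → ℤ → ℤ → ℤ → R) (a b c d : ℤ)
    (hdet : a * d - b * c = 1) (hd : 0 ≤ d) (hdc : d < c) :
    GG E c.natAbs a = GG E d.natAbs b + E a b c d := by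
  have hc : (0 : ℤ) < c := by omega
  have hc' : ((c.natAbs : ℕ) : ℤ) = c := by omega
  have hd' : ((d.natAbs : ℕ) : ℤ) = d := by omega
  have hne : c.natAbs ≠ 0 := by omega
  have hcop : Int.gcd a c = 1 := by
    apply Int.isCoprime_iff_gcd_eq_one.1
    exact ⟨d, -b, by linear_combination hdet⟩
  have hbez : a * Int.gcdA a c + c * Int.gcdB a c = 1 := by
    have := Int.gcd_eq_gcd_ab a c
    rw [hcop] at this
    push_cast at this
    linarith
  have hmod : Int.gcdA a c % c = d := by
    have h1 : c ∣ Int.gcdA a c - d :=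
      ⟨-b * Int.gcdA a c - d * Int.gcdB a c, by
        linear_combination (-Int.gcdA a c) * hdet + d * hbez⟩
    have h2 : d ≡ Int.gcdA a c [ZMOD c] := Int.modEq_iff_dvd.2 h1
    have h3 : Int.gcdA a c % c = d % c := h2.symm
    rw [h3, Int.emod_eq_of_lt hd hdc]
  have hr : rr c.natAbs a = d.natAbs := by
    unfold rr
    rw [hc', hmod]
    omega
  have hb : (a * d - 1) / c = b := by
    have : a * d - 1 = b * c := by linarith
    rw [this, Int.mul_ediv_cancel _ hc.ne']
  rw [GG]
  simp only [dif_neg hne, hr, hc', hd', hb]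

/-- the potential on primitive vectors -/
private def Gn {R : Type} [AddCommGroup R] (E : ℤ → ℤ → ℤ → ℤ → R) (p q : ℤ) : R :=
  if 0 ≤ q then GG E q.natAbs p else GG E q.natAbs (-p)

private theorem Gn_neg {R : Type} [AddCommGroup R] (E : ℤ → ℤ → ℤ → ℤ → R) (p q : ℤ) :
    Gn E (-p) (-q) = Gn E p q := by
  unfold Gn
  rcases lt_trichotomy q 0 with h | h | h
  · rw [if_pos (by omega), if_neg (by omega), Int.natAbs_neg]
  · subst h
    simp [GG_zero]
  · rw [if_neg (by omega), if_pos (by omega), Int.natAbs_neg, neg_neg]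

private theorem Gn_main {R : Type} [AddCommGroup R] (E : ℤ → ℤ → ℤ → ℤ → R)
    (hE : ∀ a b c d : ℤ, a * d - b * c = 1 → E (-a) (-b) (-c) (-d) = E a b c d ∧
      E b (-a) d (-c) = -E a b c d ∧
      E a b c d = E a (a + b) c (c + d) + E (a + b) b (c + d) d) :
    ∀ n : ℕ, ∀ a b c d : ℤ, a * d - b * c = 1 → c.natAbs + d.natAbs = n →
      Gn E a c - Gn E b d = E a b c d := by
  intro n
  induction n using Nat.strong_induction_on with
  | _ n ih =>
    -- the direct case
    have direct : ∀ a b c d : ℤ, a * d - b * c = 1 → 0 ≤ d → d < c →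
        Gn E a c - Gn E b d = E a b c d := by
      intro a b c d hdet hd hdc
      unfold Gn
      rw [if_pos (by omega), if_pos hd, GG_step E a b c d hdet hd hdc]
      abel
    -- symmetric forms
    have sneg : ∀ a b c d : ℤ, a * d - b * c = 1 →
        Gn E (-a) (-c) - Gn E (-b) (-d) = E (-a) (-b) (-c) (-d) →
        Gn E a c - Gn E b d = E a b c d := by
      intro a b c d hdet h
      rw [Gn_neg, Gn_neg, (hE a b c d hdet).1] at h
      exact h
    have sswap : ∀ a b c d : ℤ, a * d - b * c = 1 →
        Gn E b d - Gn E (-a) (-c) = E b (-a) d (-c) →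
        Gn E a c - Gn E b d = E a b c d := by
      intro a b c d hdet h
      rw [Gn_neg, (hE a b c d hdet).2.1] at h
      rw [← neg_inj, ← h]
      abel
    -- the core
    have core : ∀ a b c d : ℤ, a * d - b * c = 1 → c.natAbs + d.natAbs = n → 0 < c →
        d.natAbs ≤ c.natAbs → Gn E a c - Gn E b d = E a b c d := by
      intro a b c d hdet hn hc hdc
      rcases lt_trichotomy d c with h1 | h1 | h1
      · rcases le_or_gt 0 d with h0 | h0
        · exact direct a b c d hdet h0 h1
        · -- negative d
          have hdet1 : a * (c + d) - (a + b) * c = 1 := by linear_combination hdet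
          have hdet2 : (a + b) * d - b * (c + d) = 1 := by linear_combination hdet
          have e1 := direct a (a + b) c (c + d) hdet1 (by omega) (by omega)
          have e2 := ih ((c + d).natAbs + d.natAbs) (by omega) (a + b) b (c + d) d hdet2 rfl
          rw [(hE a b c d hdet).2.2, ← e1, ← e2]
          abel
      · -- d = c, both are one
        subst h1
        have hd1 : d = 1 := by
          have h2 : d * (a - b) = 1 := by linear_combination hdet
          have h3 := Int.isUnit_iff.1 (IsUnit.of_mul_eq_one _ h2)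
          omega
        subst hd1
        have hb : b = a - 1 := by linarith
        subst hb
        have e1 := direct a (-1) 1 0 (by ring) le_rfl (by norm_num)
        have e2 := direct (a - 1) (-1) 1 0 (by ring) le_rfl (by norm_num)
        have e3 := (hE a (-1) 1 0 (by ring)).2.2
        have e4 : a + -1 = a - 1 := by ring
        rw [e4, add_zero] at e3
        have e5 : E a (a - 1) 1 1 = E a (-1) 1 0 - E (a - 1) (-1) 1 0 := by
          rw [e3]; abel
        rw [e5, ← e1, ← e2]
        abel
      · omega
    intro a b c d hdet hn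
    rcases le_or_gt d.natAbs c.natAbs with h | h
    · have hc0 : c ≠ 0 := by
        rintro rfl
        have : d = 0 := by omega
        subst this
        simp at hdet
      rcases lt_or_gt_of_ne hc0 with h1 | h1
      · apply sneg a b c d hdet
        exact core (-a) (-b) (-c) (-d) (by linear_combination hdet) (by omega) (by omega)
          (by omega)
      · exact core a b c d hdet hn h1 h
    · have hd0 : d ≠ 0 := by
        rintro rfl
        simp at h
      apply sswap a b c d hdet
      rcases lt_or_gt_of_ne hd0 with h1 | h1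
      · apply sneg b (-a) d (-c) (by linear_combination hdet)
        exact core (-b) (- -a) (-d) (- -c) (by linear_combination hdet) (by omega) (by omega)
          (by omega)
      · exact core b (-a) d (-c) (by linear_combination hdet) (by omega) h1 (by omega)

theorem hFex : StFex := by
  intro R _ E hE
  refine ⟨fun p q => Gn E (p / (Int.gcd p q : ℕ)) (q / (Int.gcd p q : ℕ)), ?_, ?_⟩
  · intro k p q hk hpq
    have hg : (0 : ℤ) < (Int.gcd p q : ℕ) := by
      have : 0 < Int.gcd p q := by
        rw [Int.gcd_pos_iff]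
        exact hpq
      exact_mod_cast this
    have hdp : ((Int.gcd p q : ℕ) : ℤ) ∣ p := Int.gcd_dvd_left ..
    have hdq : ((Int.gcd p q : ℕ) : ℤ) ∣ q := Int.gcd_dvd_right ..
    have hgk : Int.gcd (k * p) (k * q) = k.natAbs * Int.gcd p q := Int.gcd_mul_left ..
    show Gn E (k * p / (Int.gcd (k * p) (k * q) : ℕ)) (k * q / (Int.gcd (k * p) (k * q) : ℕ)) =
      Gn E (p / (Int.gcd p q : ℕ)) (q / (Int.gcd p q : ℕ))
    rw [hgk]
    push_cast
    rcases lt_or_gt_of_ne hk with h | h
    · have e1 : |k| = -k := abs_of_neg h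
      have e2 : ∀ x : ℤ, ((Int.gcd p q : ℕ) : ℤ) ∣ x →
          k * x / (-k * (Int.gcd p q : ℕ)) = -(x / (Int.gcd p q : ℕ)) := by
        intro x hx
        have : k * x = (-k) * (-x) := by ring
        rw [this, Int.mul_ediv_mul_of_pos _ _ (by omega), Int.neg_ediv_of_dvd hx]
      rw [e1, e2 p hdp, e2 q hdq, Gn_neg]
    · have e1 : |k| = k := abs_of_pos h
      rw [e1, Int.mul_ediv_mul_of_pos _ _ h, Int.mul_ediv_mul_of_pos _ _ h]
  · intro a b c d hdet
    have h1 : Int.gcd a c = 1 := by
      apply Int.isCoprime_iff_gcd_eq_one.1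
      exact ⟨d, -b, by linear_combination hdet⟩
    have h2 : Int.gcd b d = 1 := by
      apply Int.isCoprime_iff_gcd_eq_one.1
      exact ⟨-c, a, by linear_combination hdet⟩
    show Gn E (a / (Int.gcd a c : ℕ)) (c / (Int.gcd a c : ℕ)) -
      Gn E (b / (Int.gcd b d : ℕ)) (d / (Int.gcd b d : ℕ)) = E a b c d
    rw [h1, h2]
    simp only [Nat.cast_one, Int.ediv_one]
    exact Gn_main E hE _ a b c d hdet rfl

end Pool.Agent.Helper55.CV
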