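import Pool.Agent.Helper14.CV.StA

/-!
# Project CV, module A2: the Hecke relation for the primitive
-/

set_option autoImplicit false

open UpperHalfPlane CongruenceSubgroup
open scoped MatrixGroups

namespace Pool.Agent.Helper55.CV

open Pool.Agent.Helper14.CV

/-- geometric sum over `j < l` of `exp (2 π i m (z + j) / l)` -/
private theorem gsum (l m : ℕ) (hl : 0 < l) (z : ℂ) :
    ∑ j ∈ Finset.range l, Complex.exp (2 * Real.pi * Complex.I * m * ((z + j) / l)) =
      if l ∣ m then (l : ℂ) * Complex.exp (2 * Real.pi * Complex.I * (m / l : ℕ) * z) else 0 := by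
  have hl0 : (l : ℂ) ≠ 0 := by exact_mod_cast hl.ne'
  have hprim := Complex.isPrimitiveRoot_exp l hl.ne'
  have hterm : ∀ j : ℕ, Complex.exp (2 * Real.pi * Complex.I * m * ((z + j) / l)) =
      Complex.exp (2 * Real.pi * Complex.I * m * z / l) *
        ((Complex.exp (2 * Real.pi * Complex.I / l)) ^ m) ^ j := by
    intro j
    rw [← Complex.exp_nat_mul, ← Complex.exp_nat_mul, ← Complex.exp_add]
    congr 1
    field_simp
  rw [Finset.sum_congr rfl (fun j _ => hterm j), ← Finset.mul_sum]
  split_ifs with h
  · obtain ⟨k, rfl⟩ := h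
    have h1 : (Complex.exp (2 * Real.pi * Complex.I / l)) ^ (l * k) = 1 := by
      rw [pow_mul, hprim.pow_eq_one, one_pow]
    rw [h1, Nat.mul_div_cancel_left k hl]
    simp only [one_pow, Finset.sum_const, Finset.card_range, nsmul_eq_mul, mul_one]
    rw [mul_comm]
    congr 2
    push_cast
    field_simp
  · have h1 : (Complex.exp (2 * Real.pi * Complex.I / l)) ^ m ≠ 1 := by
      intro h2
      exact h ((hprim.pow_eq_one_iff_dvd m).1 h2)
    rw [geom_sum_eq h1, ← pow_mul, mul_comm m l, pow_mul, hprim.pow_eq_one, one_pow, sub_self,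
      zero_div, mul_zero]

theorem hA2 (h1 : StA1) : StA2 := by
  intro N hN f l lam hl hf z hz
  have hl0 : (l : ℂ) ≠ 0 := by exact_mod_cast hl.ne'
  have hlR : (0 : ℝ) < l := by exact_mod_cast hl
  have hinj : Function.Injective (fun k : ℕ => l * k) := by
    intro a b hab
    exact Nat.eq_of_mul_eq_mul_left hl hab
  -- the three convergent series
  have him1 : 0 < ((l : ℂ) * z).im := by
    have : ((l : ℂ) * z).im = l * z.im := by
      simp [Complex.mul_im]
    rw [this]; positivity
  have him2 : ∀ j : ℕ, 0 < ((z + j) / (l : ℂ)).im := by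
    intro j
    have : ((z + j) / (l : ℂ)).im = z.im / l := by
      rw [show ((l : ℕ) : ℂ) = ((l : ℝ) : ℂ) by push_cast; rfl, Complex.div_ofReal_im]
      simp
    rw [this]; positivity
  have s0 : HasSum (fun m : ℕ => fc f m / m * Complex.exp (2 * Real.pi * Complex.I * m * z))
      (Fp f z) := (h1 N hN f z hz).1.hasSum
  have s1 : HasSum (fun m : ℕ => fc f m / m *
      Complex.exp (2 * Real.pi * Complex.I * m * (l * z))) (Fp f (l * z)) :=
    (h1 N hN f _ him1).1.hasSum
  have s2 : ∀ j ∈ Finset.range l, HasSum (fun m : ℕ => fc f m / m *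
      Complex.exp (2 * Real.pi * Complex.I * m * ((z + j) / l))) (Fp f ((z + j) / l)) :=
    fun j _ => (h1 N hN f _ (him2 j)).1.hasSum
  -- second part
  have s3 := hasSum_sum s2
  have e3 : (fun m : ℕ => ∑ j ∈ Finset.range l, fc f m / m *
      Complex.exp (2 * Real.pi * Complex.I * m * ((z + j) / l))) =
      fun m : ℕ => fc f m / m * (if l ∣ m then (l : ℂ) *
      Complex.exp (2 * Real.pi * Complex.I * (m / l : ℕ) * z) else 0) := by
    funext m
    rw [← Finset.mul_sum, gsum l m hl z]
  rw [e3] at s3
  have s4 : HasSum (fun k : ℕ => fc f (l * k) / k * Complex.exp (2 * Real.pi * Complex.I * k * z))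
      (∑ j ∈ Finset.range l, Fp f ((z + j) / l)) := by
    have h2 := (hinj.hasSum_iff (f := fun m : ℕ => fc f m / m * (if l ∣ m then (l : ℂ) *
      Complex.exp (2 * Real.pi * Complex.I * (m / l : ℕ) * z) else 0))
      (a := ∑ j ∈ Finset.range l, Fp f ((z + j) / l)) ?_).2 s3
    · have e4 : (fun k : ℕ => fc f (l * k) / k *
          Complex.exp (2 * Real.pi * Complex.I * k * z)) =
          (fun m : ℕ => fc f m / m * (if l ∣ m then (l : ℂ) *
          Complex.exp (2 * Real.pi * Complex.I * (m / l : ℕ) * z) else 0)) ∘
          (fun k : ℕ => l * k) := by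
        funext k
        simp only [Function.comp, dvd_mul_right, if_true, Nat.mul_div_cancel_left k hl]
        rcases Nat.eq_zero_or_pos k with rfl | hk
        · simp
        · have hk0 : (k : ℂ) ≠ 0 := by exact_mod_cast hk.ne'
          push_cast
          field_simp
      rw [e4]
      exact h2
    · intro m hm
      have : ¬ l ∣ m := by
        rintro ⟨k, rfl⟩
        exact hm ⟨k, rfl⟩
      simp only [if_neg this, mul_zero]
  have s5 : HasSum (fun m : ℕ => if l ∣ m then (l : ℂ) * fc f (m / l) / m *
      Complex.exp (2 * Real.pi * Complex.I * m * z) else 0) (Fp f (l * z)) := by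
    refine (hinj.hasSum_iff ?_).1 ?_
    · intro m hm
      have : ¬ l ∣ m := by
        rintro ⟨k, rfl⟩
        exact hm ⟨k, rfl⟩
      simp only [if_neg this]
    · have e5 : (fun m : ℕ => if l ∣ m then (l : ℂ) * fc f (m / l) / m *
          Complex.exp (2 * Real.pi * Complex.I * m * z) else 0) ∘ (fun k : ℕ => l * k) =
          fun m : ℕ => fc f m / m * Complex.exp (2 * Real.pi * Complex.I * m * (l * z)) := by
        funext k
        simp only [Function.comp, dvd_mul_right, if_true, Nat.mul_div_cancel_left k hl]
        rcases Nat.eq_zero_or_pos k with rfl | hk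
        · simp
        · have hk0 : (k : ℂ) ≠ 0 := by exact_mod_cast hk.ne'
          have e6 : 2 * Real.pi * Complex.I * ((l * k : ℕ) : ℂ) * z =
              2 * Real.pi * Complex.I * k * (l * z) := by
            push_cast; ring
          rw [e6]
          push_cast
          field_simp
      rw [e5]
      exact s1
  have s6 := s5.add s4
  have e7 : (fun m : ℕ => (if l ∣ m then (l : ℂ) * fc f (m / l) / m *
      Complex.exp (2 * Real.pi * Complex.I * m * z) else 0) +
      fc f (l * m) / m * Complex.exp (2 * Real.pi * Complex.I * m * z)) =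
      fun m : ℕ => lam * (fc f m / m * Complex.exp (2 * Real.pi * Complex.I * m * z)) := by
    funext m
    have h3 := hf m
    have h4 : lam * (fc f m / m * Complex.exp (2 * Real.pi * Complex.I * m * z)) =
        (lam * fc f m) / m * Complex.exp (2 * Real.pi * Complex.I * m * z) := by ring
    rw [h4, ← h3]
    split_ifs with h5
    · ring
    · ring
  rw [e7] at s6
  exact s6.unique (s0.mul_left lam)

end Pool.Agent.Helper55.CV
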